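import Pool.Agent.Q218.AR2.Wipe
set_option autoImplicit false

/-!
# Epochs: doubling the length of the walk
-/

namespace Pool.Agent.Q218.AR2

open Finset Pool.Agent.TH70.AR

variable {n : ℕ} {A : Past n → Fin n} {c : ℕ → ℕ}

/-- In every cube with more than `4 m j` coordinates the adversary can make the rule walk along at
least `2 ^ j` records, few of which have many useless directions, and then wipe all of them by
freezing at most `m` coordinates. -/
def Lv (A : Past n → Fin n) (c : ℕ → ℕ) (m j : ℕ) : Prop :=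
  ∀ (Y : Finset (Fin n)) (h : Past n) (a : Fin n → Bool), 4 * m * j < Y.card →
    ∃ (q : List (Rec n)) (b : Fin n → Bool) (X : Finset (Fin n)),
      Walk A c h a q b ∧ Ext Y q ∧ (∀ r ∈ q, r.S ⊆ Y) ∧ (∀ r ∈ q, r.W ⊆ Y) ∧
      Tail (4 * m * j) (2 * m) m Y q ∧
      X ⊆ Y ∧ X.card ≤ m ∧ (∀ r ∈ q, Wipes X b r) ∧ 2 ^ j ≤ q.length ∧
      q.length + m ≤ 2 ^ j * (m + 1)

lemma lv_zero (hA : Valid A) {m : ℕ} (hm : 1 ≤ m) : Lv A c m 0 := by
  intro Y h a hY
  have hne : Y.Nonempty := card_pos.1 (by omega)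
  set i := A ((a, c h.length, Y) :: h) with hi
  have hiY : i ∈ Y := hA a _ Y h hne
  refine ⟨[⟨a, Y, Y⟩], flip a i, {i}, ⟨rfl, hne, rfl⟩, ext_single Y a Y, ?_, ?_, ?_,
    by simpa using hiY, by simpa using hm, ?_, by simp, by simp; omega⟩
  · intro r hr
    rw [List.mem_singleton] at hr
    subst hr
    exact Subset.refl _
  · intro r hr
    rw [List.mem_singleton] at hr
    subst hr
    exact Subset.refl _
  · intro s
    rcases Nat.eq_zero_or_pos s with rfl | hs
    · simp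
    · have h1 : 1 ≤ 2 ^ s - 1 := by
        have : 2 ^ 1 ≤ 2 ^ s := Nat.pow_le_pow_right (by norm_num) hs
        omega
      have h2 : m * 1 ≤ m * (2 ^ s - 1) := Nat.mul_le_mul_left _ h1
      have h3 := List.countP_le_length
        (p := fun r : Rec n => decide (4 * m * 0 < (Y \ r.W).card + 2 * m * s)) (l := [⟨a, Y, Y⟩])
      simp only [List.length_singleton] at h3
      omega
  · intro r hr
    rw [List.mem_singleton] at hr
    subst hr
    refine ⟨i, mem_singleton_self i, hiY, ?_⟩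
    change flip a i i ≠ a i
    rw [flip_self]
    simp

lemma lv_succ (hA : Valid A) {m j : ℕ} {F : ℕ → ℕ} (hF0 : F 0 = 0)
    (hF : ∀ t, ∃ k i : ℕ, 1 ≤ k ∧ 4 * m * (2 ^ i - 1) ≤ F t ∧
      (4 * m * j - 2 * m * i) + (4 * m * j - 2 * m * i) / k ≤ 4 * m * j + m ∧
      F (t + 1) ≤ F t + 1 + F t / (4 * k + 3))
    (hFm : 2 ^ (j + 1) * (m + 1) ≤ F m) (h : Lv A c m j) : Lv A c m (j + 1) := by
  intro Y p a hY
  have hY' : 4 * m * (j + 1) = 4 * m * j + 4 * m := by ring
  obtain ⟨q₁, b₁, X₁, w₁, e₁, s₁, u₁, t₁, x₁, c₁, v₁, n₁, m₁⟩ := h Y p a (by omega)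
  have hY₁ : (Y \ X₁).card + X₁.card = Y.card := card_sdiff_add_card_eq_card x₁
  obtain ⟨q₂, b₂, X₂, w₂, e₂, s₂, u₂, t₂, x₂, c₂, v₂, n₂, m₂⟩ :=
    h (Y \ X₁) (pst c p q₁) b₁ (by omega)
  have hY₂ : ((Y \ X₁) \ X₂).card + X₂.card = (Y \ X₁).card := card_sdiff_add_card_eq_card x₂
  have htail : Tail (4 * m * j) (2 * m) (2 * m) ((Y \ X₁) \ X₂) (q₁ ++ q₂) := by
    intro i
    rw [List.countP_append]
    have h1 := (t₁.subset (Y' := (Y \ X₁) \ X₂) (sdiff_subset.trans sdiff_subset)) i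
    have h2 := (t₂.subset (Y' := (Y \ X₁) \ X₂) sdiff_subset) i
    have h3 : 2 * m * (2 ^ i - 1) = m * (2 ^ i - 1) + m * (2 ^ i - 1) := by ring
    omega
  obtain ⟨q₃, b₃, X₃, w₃, e₃, s₃, u₃, x₃, -, c₃, m₃, v₃, v₃'⟩ :=
    wipe (c := c) hA (K := 4 * m * j) (D := 2 * m) (C := m) (B := 4 * m * j + m) hF0 hF m
      ((Y \ X₁) \ X₂) ∅ (q₁ ++ q₂) (pst c (pst c p q₁) q₂) b₂
      (empty_subset _) htail
      (by
        rw [List.length_append]
        have : 2 ^ (j + 1) * (m + 1) = 2 ^ j * (m + 1) + 2 ^ j * (m + 1) := by ring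
        omega)
      (by rw [card_empty]; omega)
  simp only [sdiff_empty, card_empty, zero_add] at s₃ u₃ c₃
  have f₂ := walk_fix hA w₂ s₂
  have f₃ := walk_fix hA w₃ s₃
  -- the second and third parts
  have S₂₃ : ∀ r ∈ q₂.map (cl X₂ b₂) ++ q₃, r.S ⊆ Y \ X₁ := by
    intro r hr
    rcases List.mem_append.1 hr with hr | hr
    · obtain ⟨s, hs, rfl⟩ := List.mem_map.1 hr
      exact s₂ s hs
    · exact (s₃ r hr).trans sdiff_subset
  have W₂₃ : ∀ r ∈ q₂.map (cl X₂ b₂) ++ q₃, r.W ⊆ Y \ X₁ := by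
    intro r hr
    rcases List.mem_append.1 hr with hr | hr
    · obtain ⟨s, hs, rfl⟩ := List.mem_map.1 hr
      exact (filter_subset _ _).trans (u₂ s hs)
    · exact (u₃ r hr).1.trans sdiff_subset
  have E₂₃ : Ext (Y \ X₁) (q₂.map (cl X₂ b₂) ++ q₃) :=
    ext_comp e₂ v₂ e₃ s₃ (fun r hr => (u₃ r hr).1) fun r hr x hx =>
      f₃.2 r hr x fun h' => (mem_sdiff.1 h').2 hx
  have E : Ext Y (q₁.map (cl X₁ b₁) ++ (q₂.map (cl X₂ b₂) ++ q₃)) := by
    refine ext_comp e₁ v₁ E₂₃ S₂₃ W₂₃ fun r hr x hx => ?_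
    rcases List.mem_append.1 hr with hr | hr
    · obtain ⟨s, hs, rfl⟩ := List.mem_map.1 hr
      exact f₂.2 s hs x fun h' => (mem_sdiff.1 h').2 hx
    · rw [f₃.2 r hr x fun h' => (mem_sdiff.1 (mem_sdiff.1 h').1).2 hx]
      exact f₂.1 x fun h' => (mem_sdiff.1 h').2 hx
  have hX₃ : ∀ x ∈ X₃, x ∉ X₁ ∧ x ∉ X₂ := fun x hx =>
    ⟨(mem_sdiff.1 (mem_sdiff.1 (x₃ hx)).1).2, (mem_sdiff.1 (x₃ hx)).2⟩
  have h3' := card_union_le X₁ X₂
  -- the numbers of useless directions
  have g₁ : ∀ s : Rec n, (Y \ (cl X₁ b₁ s).W).card ≤ (Y \ s.W).card + m := by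
    intro s
    have h1 : Y \ (cl X₁ b₁ s).W ⊆ (Y \ s.W) ∪ X₁ := by
      intro x hx
      rw [mem_sdiff] at hx
      rw [mem_union, mem_sdiff]
      by_cases hxX : x ∈ X₁
      · exact Or.inr hxX
      · exact Or.inl ⟨hx.1, fun hW => hx.2 (mem_filter.2 ⟨hW, fun h' => hxX h'.1⟩)⟩
    have h2 := card_le_card h1
    have h3 := card_union_le (Y \ s.W) X₁
    omega
  have g₂ : ∀ s : Rec n, (Y \ (cl X₂ b₂ s).W).card ≤ ((Y \ X₁) \ s.W).card + 2 * m := by
    intro s
    have h1 : Y \ (cl X₂ b₂ s).W ⊆ ((Y \ X₁) \ s.W) ∪ (X₁ ∪ X₂) := by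
      intro x hx
      rw [mem_sdiff] at hx
      rw [mem_union, mem_sdiff, mem_sdiff, mem_union]
      by_cases hxX : x ∈ X₁
      · exact Or.inr (Or.inl hxX)
      by_cases hxX₂ : x ∈ X₂
      · exact Or.inr (Or.inr hxX₂)
      · exact Or.inl ⟨⟨hx.1, hxX⟩,
          fun hW => hx.2 (mem_filter.2 ⟨hW, fun h' => hxX₂ h'.1⟩)⟩
    have h2 := card_le_card h1
    have h3 := card_union_le ((Y \ X₁) \ s.W) (X₁ ∪ X₂)
    omega
  have g₃ : ∀ r ∈ q₃, (Y \ r.W).card ≤ 4 * m * (j + 1) := by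
    intro r hr
    have h1 : Y \ r.W ⊆ (((Y \ X₁) \ X₂) \ r.W) ∪ (X₁ ∪ X₂) := by
      intro x hx
      rw [mem_sdiff] at hx
      rw [mem_union, mem_sdiff, mem_sdiff, mem_sdiff, mem_union]
      by_cases hxX : x ∈ X₁
      · exact Or.inr (Or.inl hxX)
      by_cases hxX₂ : x ∈ X₂
      · exact Or.inr (Or.inr hxX₂)
      · exact Or.inl ⟨⟨⟨hx.1, hxX⟩, hxX₂⟩, hx.2⟩
    have h2 := card_le_card h1
    have h3 := card_union_le (((Y \ X₁) \ X₂) \ r.W) (X₁ ∪ X₂)
    have h4 := (u₃ r hr).2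
    omega
  refine ⟨q₁.map (cl X₁ b₁) ++ (q₂.map (cl X₂ b₂) ++ q₃), b₃, X₃, ?_, E, ?_, ?_, ?_,
    x₃.trans (sdiff_subset.trans sdiff_subset), c₃, ?_, ?_, ?_⟩
  · refine walk_append (walk_map w₁) ?_
    rw [pst_map]
    refine walk_append (walk_map w₂) ?_
    rw [pst_map]
    exact w₃
  · intro r hr
    rcases List.mem_append.1 hr with hr | hr
    · obtain ⟨s, hs, rfl⟩ := List.mem_map.1 hr
      exact s₁ s hs
    · exact (S₂₃ r hr).trans sdiff_subset
  · intro r hr
    rcases List.mem_append.1 hr with hr | hr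
    · obtain ⟨s, hs, rfl⟩ := List.mem_map.1 hr
      exact (filter_subset _ _).trans (u₁ s hs)
    · exact (W₂₃ r hr).trans sdiff_subset
  · intro i
    rw [List.countP_append, List.countP_append, List.countP_map, List.countP_map]
    rcases Nat.eq_zero_or_pos i with rfl | hi
    · have k₁ := t₁ 0
      have k₂ := t₂ 0
      have e₁ : q₁.countP ((fun r : Rec n =>
          decide (4 * m * (j + 1) < (Y \ r.W).card + 2 * m * 0)) ∘ cl X₁ b₁) ≤
          q₁.countP (fun r => decide (4 * m * j < (Y \ r.W).card + 2 * m * 0)) := by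
        apply List.countP_mono_left
        intro r _ hr
        simp only [Function.comp, decide_eq_true_eq] at hr ⊢
        have := g₁ r
        omega
      have e₂ : q₂.countP ((fun r : Rec n =>
          decide (4 * m * (j + 1) < (Y \ r.W).card + 2 * m * 0)) ∘ cl X₂ b₂) ≤
          q₂.countP (fun r => decide (4 * m * j < ((Y \ X₁) \ r.W).card + 2 * m * 0)) := by
        apply List.countP_mono_left
        intro r _ hr
        simp only [Function.comp, decide_eq_true_eq] at hr ⊢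
        have := g₂ r
        omega
      have e₃ : q₃.countP (fun r : Rec n =>
          decide (4 * m * (j + 1) < (Y \ r.W).card + 2 * m * 0)) = 0 := by
        rw [List.countP_eq_zero]
        intro r hr
        have := g₃ r hr
        simp only [decide_eq_true_eq]
        omega
      omega
    · obtain ⟨i, rfl⟩ : ∃ i', i = i' + 1 := ⟨i - 1, by omega⟩
      have k₁ := t₁ i
      have k₂ := t₂ i
      have hi2 : 2 * m * (i + 1) = 2 * m * i + 2 * m := by ring
      have e₁ : q₁.countP ((fun r : Rec n =>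
          decide (4 * m * (j + 1) < (Y \ r.W).card + 2 * m * (i + 1))) ∘ cl X₁ b₁) ≤
          q₁.countP (fun r => decide (4 * m * j < (Y \ r.W).card + 2 * m * i)) := by
        apply List.countP_mono_left
        intro r _ hr
        simp only [Function.comp, decide_eq_true_eq] at hr ⊢
        have := g₁ r
        omega
      have e₂ : q₂.countP ((fun r : Rec n =>
          decide (4 * m * (j + 1) < (Y \ r.W).card + 2 * m * (i + 1))) ∘ cl X₂ b₂) ≤
          q₂.countP (fun r => decide (4 * m * j < ((Y \ X₁) \ r.W).card + 2 * m * i)) := by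
        apply List.countP_mono_left
        intro r _ hr
        simp only [Function.comp, decide_eq_true_eq] at hr ⊢
        have := g₂ r
        omega
      have e₃ : q₃.countP (fun r : Rec n =>
          decide (4 * m * (j + 1) < (Y \ r.W).card + 2 * m * (i + 1))) ≤ m :=
        (List.countP_le_length).trans m₃
      have hp : 1 ≤ 2 ^ i := Nat.one_le_two_pow
      have hsum : m * (2 ^ i - 1) + (m * (2 ^ i - 1) + m) = m * (2 ^ (i + 1) - 1) := by
        have h1 : 2 ^ (i + 1) - 1 = (2 ^ i - 1) + (2 ^ i - 1) + 1 := by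
          rw [pow_succ]; omega
        rw [h1]
        ring
      omega
  · intro r hr
    rcases List.mem_append.1 hr with hr | hr
    · obtain ⟨s, hs, rfl⟩ := List.mem_map.1 hr
      obtain ⟨x, hx, h1, h2⟩ := v₃ s (List.mem_append_left _ hs)
      exact ⟨x, hx, mem_filter.2 ⟨h1, fun h' => (hX₃ x hx).1 h'.1⟩, h2⟩
    · rcases List.mem_append.1 hr with hr | hr
      · obtain ⟨s, hs, rfl⟩ := List.mem_map.1 hr
        obtain ⟨x, hx, h1, h2⟩ := v₃ s (List.mem_append_right _ hs)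
        exact ⟨x, hx, mem_filter.2 ⟨h1, fun h' => (hX₃ x hx).2 h'.1⟩, h2⟩
      · exact v₃' r hr
  · simp only [List.length_append, List.length_map]
    rw [pow_succ]
    omega
  · simp only [List.length_append, List.length_map]
    have : 2 ^ (j + 1) * (m + 1) = 2 ^ j * (m + 1) + 2 ^ j * (m + 1) := by ring
    omega

/-! ### The schedule -/

/-- how many doublings of the number of heavy records fit -/
def ix (m x : ℕ) : ℕ := Nat.log 2 (x / (4 * m) + 1)

/-- the threshold -/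
def kap (J m x : ℕ) : ℕ := 4 * J / (2 * ix m x + 1) + 1

/-- how many records can be wiped in `t` steps -/
def FF (J m : ℕ) : ℕ → ℕ
  | 0 => 0
  | t + 1 => FF J m t + 1 + FF J m t / (4 * kap J m (FF J m t) + 3)

lemma FF_spec {J m j : ℕ} (hj : j ≤ J) (t : ℕ) :
    ∃ k i : ℕ, 1 ≤ k ∧ 4 * m * (2 ^ i - 1) ≤ FF J m t ∧
      (4 * m * j - 2 * m * i) + (4 * m * j - 2 * m * i) / k ≤ 4 * m * j + m ∧
      FF J m (t + 1) ≤ FF J m t + 1 + FF J m t / (4 * k + 3) := by
  refine ⟨kap J m (FF J m t), ix m (FF J m t), Nat.le_add_left _ _, ?_, ?_, le_rfl⟩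
  · have h1 : 2 ^ ix m (FF J m t) ≤ FF J m t / (4 * m) + 1 := by
      unfold ix
      exact Nat.pow_log_le_self 2 (Nat.succ_ne_zero _)
    calc 4 * m * (2 ^ ix m (FF J m t) - 1) ≤ 4 * m * (FF J m t / (4 * m)) :=
          Nat.mul_le_mul_left _ (Nat.sub_le_iff_le_add.2 h1)
      _ ≤ FF J m t := Nat.mul_div_le _ _
  · unfold kap
    set i := ix m (FF J m t)
    set κ := 4 * J / (2 * i + 1) + 1 with hκ
    have h1 : 4 * J < κ * (2 * i + 1) := by
      rw [hκ, mul_comm (4 * J / (2 * i + 1) + 1)]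
      exact Nat.lt_mul_div_succ _ (Nat.succ_pos _)
    set x := 4 * m * j - 2 * m * i with hx
    have h2 : x / κ ≤ (2 * i + 1) * m := by
      apply Nat.div_le_of_le_mul
      have h3 : 4 * J * m ≤ κ * (2 * i + 1) * m := Nat.mul_le_mul_right _ h1.le
      have h4 : 4 * m * j ≤ 4 * J * m := by
        calc 4 * m * j ≤ 4 * m * J := Nat.mul_le_mul_left _ hj
          _ = _ := by ring
      have h5 : κ * ((2 * i + 1) * m) = κ * (2 * i + 1) * m := by ring
      omega
    rcases Nat.eq_zero_or_pos x with h0 | h0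
    · rw [h0]; simp
    · have h6 : (2 * i + 1) * m = 2 * m * i + m := by ring
      omega

lemma FF_mono {J m : ℕ} : Monotone (FF J m) := by
  apply monotone_nat_of_le_succ
  intro t
  exact le_trans (Nat.le_succ _) (Nat.le_add_right _ _)

/-- doubling -/
lemma FF_double {J m κ : ℕ} {t : ℕ} (hκ : ∀ s ≥ t, kap J m (FF J m s) ≤ κ) (b : ℕ) :
    2 ^ b * (FF J m t + 1) ≤ FF J m (t + (4 * κ + 3) * b) + 1 := by
  have hstep : ∀ s ≥ t, (4 * κ + 4) * (FF J m s + 1) ≤ (4 * κ + 3) * (FF J m (s + 1) + 1) := by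
    intro s hs
    have h1 := hκ s hs
    have h2 : FF J m s / (4 * κ + 3) ≤ FF J m s / (4 * kap J m (FF J m s) + 3) :=
      Nat.div_le_div_left (by omega) (by omega)
    have h3 : FF J m s < (4 * κ + 3) * (FF J m s / (4 * κ + 3) + 1) :=
      Nat.lt_mul_div_succ _ (by omega)
    have h4 : FF J m s / (4 * κ + 3) + 1 + FF J m s + 1 ≤ FF J m (s + 1) + 1 := by
      simp only [FF]
      omega
    calc (4 * κ + 4) * (FF J m s + 1) = (4 * κ + 3) * (FF J m s + 1) + (FF J m s + 1) := by ring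
      _ ≤ (4 * κ + 3) * (FF J m s + 1) + (4 * κ + 3) * (FF J m s / (4 * κ + 3) + 1) := by omega
      _ = (4 * κ + 3) * (FF J m s / (4 * κ + 3) + 1 + FF J m s + 1) := by ring
      _ ≤ _ := Nat.mul_le_mul_left _ h4
  have hall : ∀ s, (4 * κ + 4) ^ s * (FF J m t + 1) ≤ (4 * κ + 3) ^ s * (FF J m (t + s) + 1) := by
    intro s
    induction s with
    | zero => simp
    | succ s ih =>
      calc (4 * κ + 4) ^ (s + 1) * (FF J m t + 1)
          = (4 * κ + 4) * ((4 * κ + 4) ^ s * (FF J m t + 1)) := by ring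
        _ ≤ (4 * κ + 4) * ((4 * κ + 3) ^ s * (FF J m (t + s) + 1)) := Nat.mul_le_mul_left _ ih
        _ = (4 * κ + 3) ^ s * ((4 * κ + 4) * (FF J m (t + s) + 1)) := by ring
        _ ≤ (4 * κ + 3) ^ s * ((4 * κ + 3) * (FF J m (t + s + 1) + 1)) :=
            Nat.mul_le_mul_left _ (hstep _ (by omega))
        _ = _ := by rw [← add_assoc]; ring
  have h1 := hall ((4 * κ + 3) * b)
  have h2 := two_pow_mul_le (2 * κ + 1) b
  have e1 : 2 * (2 * κ + 1) + 1 = 4 * κ + 3 := by ring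
  have e2 : 2 * (2 * κ + 1) + 2 = 4 * κ + 4 := by ring
  rw [e1, e2] at h2
  have h3 : (4 * κ + 3) ^ ((4 * κ + 3) * b) * (2 ^ b * (FF J m t + 1)) ≤
      (4 * κ + 3) ^ ((4 * κ + 3) * b) * (FF J m (t + (4 * κ + 3) * b) + 1) := by
    calc (4 * κ + 3) ^ ((4 * κ + 3) * b) * (2 ^ b * (FF J m t + 1))
        = (2 ^ b * (4 * κ + 3) ^ ((4 * κ + 3) * b)) * (FF J m t + 1) := by ring
      _ ≤ (4 * κ + 4) ^ ((4 * κ + 3) * b) * (FF J m t + 1) := Nat.mul_le_mul_right _ h2
      _ ≤ _ := h1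
  exact Nat.le_of_mul_le_mul_left h3 (by positivity)

/-- the threshold is small once the number of records is large -/
lemma kap_le {J m x i : ℕ} (hm : 1 ≤ m) (hx : 4 * m * (2 ^ i - 1) ≤ x) :
    kap J m x ≤ 4 * J / (2 * i + 1) + 1 := by
  have h1 : i ≤ ix m x := by
    unfold ix
    apply Nat.le_log_of_pow_le (by norm_num)
    have h2 : 2 ^ i - 1 ≤ x / (4 * m) := by
      rw [Nat.le_div_iff_mul_le (by omega), mul_comm]
      exact hx
    omega
  unfold kap
  have : 4 * J / (2 * ix m x + 1) ≤ 4 * J / (2 * i + 1) := Nat.div_le_div_left (by omega) (by omega)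
  omega

/-- the time needed for the phases up to `i` -/
def tm (J b : ℕ) : ℕ → ℕ
  | 0 => (4 * (4 * J + 1) + 3) * b
  | i + 1 => tm J b i + (4 * (4 * J / (2 * (i + 1) + 1) + 1) + 3) * 2

lemma FF_tm {J m b : ℕ} (hm : 1 ≤ m) (hb : 4 * m + 1 ≤ 2 ^ b) (i : ℕ) :
    4 * m * (2 ^ (i + 1) - 1) ≤ FF J m (tm J b i) := by
  induction i with
  | zero =>
    have h1 := FF_double (J := J) (m := m) (κ := 4 * J + 1) (t := 0) (fun s _ => by
      have := kap_le (J := J) (m := m) (x := FF J m s) (i := 0) hm (by simp)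
      simpa using this) b
    have h2 : FF J m 0 = 0 := rfl
    rw [h2] at h1
    simp only [tm, zero_add] at h1 ⊢
    have h3 : 4 * m * (2 ^ 1 - 1) = 4 * m := by norm_num
    omega
  | succ i ih =>
    have h1 := FF_double (J := J) (m := m) (κ := 4 * J / (2 * (i + 1) + 1) + 1) (t := tm J b i)
      (fun s hs => kap_le hm (ih.trans (FF_mono hs))) 2
    simp only [tm]
    have hp : 1 ≤ 2 ^ i := Nat.one_le_two_pow
    have h2 : 4 * m * (2 ^ (i + 1 + 1) - 1) + 1 ≤ 2 ^ 2 * (4 * m * (2 ^ (i + 1) - 1) + 1) := by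
      have e1 : 2 ^ (i + 1 + 1) - 1 = 4 * (2 ^ i - 1) + 3 := by
        rw [pow_succ, pow_succ]; omega
      have e2 : 2 ^ (i + 1) - 1 = 2 * (2 ^ i - 1) + 1 := by
        rw [pow_succ]; omega
      rw [e1, e2]
      nlinarith
    have h3 : 2 ^ 2 * (4 * m * (2 ^ (i + 1) - 1) + 1) ≤ 2 ^ 2 * (FF J m (tm J b i) + 1) :=
      Nat.mul_le_mul_left _ (by omega)
    omega

/-- the harmonic sum is at most logarithmic -/
lemma sum_div_le (N l : ℕ) : ∑ i ∈ Finset.Ico 1 (2 ^ l), N / i ≤ N * l := by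
  induction l with
  | zero => simp
  | succ l ih =>
    have h1 : 1 ≤ 2 ^ l := Nat.one_le_two_pow
    rw [← Finset.sum_Ico_consecutive _ h1 (Nat.pow_le_pow_right (by norm_num) (Nat.le_succ l))]
    have h2 : ∑ i ∈ Finset.Ico (2 ^ l) (2 ^ (l + 1)), N / i ≤ N := by
      calc ∑ i ∈ Finset.Ico (2 ^ l) (2 ^ (l + 1)), N / i
          ≤ ∑ i ∈ Finset.Ico (2 ^ l) (2 ^ (l + 1)), N / 2 ^ l := by
            apply Finset.sum_le_sum
            intro i hi
            rw [Finset.mem_Ico] at hi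
            exact Nat.div_le_div_left hi.1 (by positivity)
        _ = 2 ^ l * (N / 2 ^ l) := by
            rw [Finset.sum_const, Nat.card_Ico, smul_eq_mul]
            congr 1
            rw [pow_succ]; omega
        _ ≤ N := Nat.mul_div_le _ _
    calc _ ≤ N * l + N := Nat.add_le_add ih h2
      _ = N * (l + 1) := by ring

lemma tm_le {J b : ℕ} (i : ℕ) :
    tm J b i ≤ (16 * J + 7) * b + 8 * ∑ s ∈ Finset.Ico 1 (i + 1), (2 * J) / s + 14 * i := by
  induction i with
  | zero =>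
    simp only [tm]
    have : (4 * (4 * J + 1) + 3) * b = (16 * J + 7) * b := by ring
    simp
    omega
  | succ i ih =>
    rw [Finset.sum_Ico_succ_top (by omega)]
    simp only [tm]
    have h1 : 4 * J / (2 * (i + 1) + 1) ≤ 2 * J / (i + 1) := by
      calc 4 * J / (2 * (i + 1) + 1) ≤ 4 * J / (2 * (i + 1)) :=
            Nat.div_le_div_left (by omega) (by omega)
        _ = 2 * (2 * J) / (2 * (i + 1)) := by ring_nf
        _ = 2 * J / (i + 1) := Nat.mul_div_mul_left _ _ (by norm_num)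
    omega

/-- the number of steps -/
def ms (J : ℕ) : ℕ := 320 * J * (Nat.log 2 J + 1)

lemma FF_big {J : ℕ} (hJ : 1 ≤ J) : 2 ^ J * (ms J + 1) ≤ FF J (ms J) (ms J) := by
  set l := Nat.log 2 J + 1 with hl
  have hJl : J < 2 ^ l := Nat.lt_pow_succ_log_self (by norm_num) J
  have hms : ms J = 320 * J * l := rfl
  have hl1 : 1 ≤ l := by omega
  have hm : 1 ≤ ms J := by
    rw [hms]
    have : 1 ≤ J * l := Nat.mul_pos hJ hl1
    calc 1 ≤ 320 * (J * l) := by omega
      _ = _ := by ring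
  -- `b`
  have hb : 4 * ms J + 1 ≤ 2 ^ (10 + 2 * l) := by
    have h1 : l ≤ 2 ^ (l - 1) := by
      have : l - 1 < 2 ^ (l - 1) := Nat.lt_two_pow_self
      omega
    have h2 : (J + 1) * l ≤ 2 ^ l * 2 ^ (l - 1) := Nat.mul_le_mul hJl h1
    have h3 : 2 ^ (10 + 2 * l) = 2048 * (2 ^ l * 2 ^ (l - 1)) := by
      rw [← pow_add]
      have : 10 + 2 * l = 11 + (l + (l - 1)) := by omega
      rw [this, pow_add]
      norm_num
    rw [h3, hms]
    have h4 : (J + 1) * l = J * l + l := by ring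
    have h5 : 4 * (320 * J * l) = 1280 * (J * l) := by ring
    have h6 : 1 ≤ J * l := Nat.mul_pos hJ hl1
    omega
  have h1 := FF_tm (J := J) hm hb (J - 1)
  have htm : tm J (10 + 2 * l) (J - 1) ≤ ms J := by
    have h2 := tm_le (J := J) (b := 10 + 2 * l) (J - 1)
    have h3 : ∑ s ∈ Finset.Ico 1 (J - 1 + 1), (2 * J) / s ≤ 2 * J * l := by
      refine le_trans (Finset.sum_le_sum_of_subset ?_) (sum_div_le (2 * J) l)
      apply Finset.Ico_subset_Ico le_rfl
      omega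
    have h4 : (16 * J + 7) * (10 + 2 * l) ≤ 23 * J * (10 + 2 * l) :=
      Nat.mul_le_mul_right _ (by omega)
    have h5 : J ≤ J * l := Nat.le_mul_of_pos_right _ hl1
    have h6 : 23 * J * (10 + 2 * l) = 230 * J + 46 * (J * l) := by ring
    have h7 : 8 * (2 * J * l) = 16 * (J * l) := by ring
    have h8 : ms J = 320 * (J * l) := by rw [hms]; ring
    omega
  refine le_trans ?_ (h1.trans (FF_mono htm))
  have e : J - 1 + 1 = J := by omega
  rw [e]
  have h2 : 2 ≤ 2 ^ J := by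
    calc 2 = 2 ^ 1 := rfl
      _ ≤ 2 ^ J := Nat.pow_le_pow_right (by norm_num) hJ
  have h3 : 4 * ms J * (2 ^ J - 1) = 4 * ms J * 2 ^ J - 4 * ms J := by
    rw [Nat.mul_sub, mul_one]
  have h4 : 4 * ms J ≤ 2 * (ms J * 2 ^ J) := by nlinarith
  have h5 : 2 ^ J ≤ ms J * 2 ^ J := Nat.le_mul_of_pos_left _ hm
  have h6 : 2 ^ J * (ms J + 1) = ms J * 2 ^ J + 2 ^ J := by ring
  have h7 : 4 * ms J * 2 ^ J = 4 * (ms J * 2 ^ J) := by ring
  rw [h3, h6, h7]
  omega

/-- all levels -/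
lemma lv_all (hA : Valid A) {J : ℕ} (hJ : 1 ≤ J) (j : ℕ) (hj : j ≤ J) : Lv A c (ms J) j := by
  have hm : 1 ≤ ms J := by
    unfold ms
    have : 1 ≤ J * (Nat.log 2 J + 1) := Nat.mul_pos hJ (by omega)
    calc 1 ≤ 320 * (J * (Nat.log 2 J + 1)) := by omega
      _ = _ := by ring
  induction j with
  | zero => exact lv_zero hA hm
  | succ j ih =>
    refine lv_succ hA (F := FF J (ms J)) rfl (fun t => FF_spec (j := j) (by omega) t) ?_
      (ih (by omega))
    refine le_trans ?_ (FF_big hJ)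
    exact Nat.mul_le_mul_right _ (Nat.pow_le_pow_right (by norm_num) hj)

end Pool.Agent.Q218.AR2
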