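import Pool.Agent.Q218.AR2.Level
set_option autoImplicit false

/-!
# One objective function which is slow for many rules
-/

namespace Pool.Agent.Q218.AR2

open Finset Pool.Agent.TH70.AR

variable {n : ℕ}

lemma run_add (A : Past n → Fin n) (f : (Fin n → Bool) → ℕ) (s t : ℕ) (a : Fin n → Bool)
    (h : Past n) : run A f (s + t) a h = run A f t (run A f s a h).1 (run A f s a h).2 := by
  induction s generalizing a h with
  | zero => simp [run]
  | succ s ih =>
    rw [Nat.succ_add]
    simp only [run]
    exact ih _ _

/-- the run depends only on what is seen -/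
lemma run_congr (A : Past n → Fin n) (f F : (Fin n → Bool) → ℕ) (t : ℕ) (a : Fin n → Bool)
    (h : Past n) (hv : ∀ s < t, view f (run A F s a h).1 = view F (run A F s a h).1) :
    run A f t a h = run A F t a h := by
  induction t with
  | zero => rfl
  | succ t ih =>
    rw [run_succ, run_succ, ih fun s hs => hv s (by omega), hv t (by omega)]

/-- outside of a common hypersink the views of two functions agree if the functions agree -/
lemma view_congr {f F : (Fin n → Bool) → ℕ} {P : Finset (Fin n)} {e : Fin n → Bool}
    (hf : Hyp f P e) (hF : Hyp F P e) (hag : ∀ u, ¬ On P e u → f u = F u) {u : Fin n → Bool}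
    (hu : ¬ On P e u) : view f u = view F u := by
  have h1 : improving f u = improving F u := by
    ext i
    simp only [improving, mem_filter, mem_univ, true_and]
    by_cases hi : On P e (flip u i)
    · have hiP : i ∈ P := by
        by_contra h
        exact hu (by simpa [TH70.AR.flip_flip] using hi.flip h)
      have h2 := hf _ hi i hiP
      have h3 := hF _ hi i hiP
      rw [TH70.AR.flip_flip] at h2 h3
      exact iff_of_true h2 h3
    · rw [hag u hu, hag _ hi]
  simp only [view, h1, hag u hu]

/-- the vertex at which a run ends lies in every hypersink -/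
lemma on_of_max {f : (Fin n → Bool) → ℕ} (hf : AOF f) {P : Finset (Fin n)} {e : Fin n → Bool}
    (hP : Hyp f P e) {u : Fin n → Bool} (hu : improving f u = ∅) : On P e u := by
  obtain ⟨y, ⟨hy1, hy2⟩, -⟩ := hf (univ \ P) e
  obtain ⟨z, -, hz⟩ := hf univ u
  have h1 : y = z := hz y ⟨by simp, fun i _ => by
    by_cases hi : i ∈ P
    · exact hP y (fun j hj => hy1 j (by simp [hj])) i hi
    · exact hy2 i (by simp [hi])⟩
  have h2 : u = z := hz u ⟨by simp, fun i _ => by
    have h3 : i ∉ improving f u := by rw [hu]; simp
    simp only [improving, mem_filter, mem_univ, true_and, not_lt] at h3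
    exact lt_of_le_of_ne h3 (hf.ne u i)⟩
  rw [h2, ← h1]
  exact fun j hj => hy1 j (by simp [hj])

/-- every run comes to an end -/
lemma run_end {f : (Fin n → Bool) → ℕ} {A : Past n → Fin n} (hA : Valid A)
    (x₀ : Fin n → Bool) : ∃ t, improving f (run A f t x₀ []).1 = ∅ := by
  by_contra hne
  push Not at hne
  have hup : ∀ t, f (run A f t x₀ []).1 < f (run A f (t + 1) x₀ []).1 := by
    intro t
    have h1 := hA (run A f t x₀ []).1 (f (run A f t x₀ []).1)
      (improving f (run A f t x₀ []).1) (run A f t x₀ []).2 (hne t)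
    rw [run_succ]
    change A (view f (run A f t x₀ []).1 :: (run A f t x₀ []).2) ∈ _ at h1
    rw [improving, mem_filter] at h1
    exact h1.2
  have h1 : StrictMono fun t => f (run A f t x₀ []).1 := strictMono_nat_of_lt_succ hup
  have h3 : Function.Injective fun t => (run A f t x₀ []).1 := fun s t h =>
    h1.injective (by simp only at h ⊢; rw [h])
  exact not_injective_infinite_finite _ h3

lemma run_length (A : Past n → Fin n) (f : (Fin n → Bool) → ℕ) (t : ℕ) (a : Fin n → Bool)
    (h : Past n) : (run A f t a h).2.length = h.length + t := by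
  induction t with
  | zero => rfl
  | succ t ih => rw [run_succ, List.length_cons, ih]; omega

lemma aof_add {f : (Fin n → Bool) → ℕ} (hf : AOF f) (d : ℕ) : AOF fun u => f u + d := by
  intro F x
  obtain ⟨y, ⟨h1, h2⟩, h3⟩ := hf F x
  exact ⟨y, ⟨h1, fun i hi => Nat.add_lt_add_right (h2 i hi) d⟩, fun z hz => h3 z ⟨hz.1,
    fun i hi => Nat.lt_of_add_lt_add_right (hz.2 i hi)⟩⟩

lemma aof_congr {f g : (Fin n → Bool) → ℕ} (hf : AOF f)
    (h : ∀ x i, g x < g (flip x i) ↔ f x < f (flip x i)) : AOF g := by
  have h1 : ∀ (y : Fin n → Bool) (i : Fin n),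
      g (TH70.AR.flip y i) < g y ↔ f (TH70.AR.flip y i) < f y := by
    intro y i
    have := h (flip y i) i
    rwa [TH70.AR.flip_flip] at this
  intro F x
  obtain ⟨y, ⟨hy1, hy2⟩, hy3⟩ := hf F x
  exact ⟨y, ⟨hy1, fun i hi => (h1 y i).2 (hy2 i hi)⟩,
    fun z hz => hy3 z ⟨hz.1, fun i hi => (h1 z i).1 (hz.2 i hi)⟩⟩

/-- the visited vertices increase -/
lemma walk_inc {A : Past n → Fin n} {c : ℕ → ℕ} (hA : Valid A) {f : (Fin n → Bool) → ℕ}
    {b : Fin n → Bool} {Y : Finset (Fin n)} : ∀ (q : List (Rec n)) (h : Past n) (a : Fin n → Bool),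
      Walk A c h a q b → (∀ r ∈ q, ∀ i ∈ Y, (f r.w < f (flip r.w i) ↔ i ∈ r.S)) →
      (∀ r ∈ q, r.S ⊆ Y) →
      ∀ (t : ℕ) (ht : t + 1 < q.length), f (q[t]).w < f (q[t + 1]).w := by
  intro q
  induction q with
  | nil => intro h a _ _ _ t ht; simp at ht
  | cons r q ih =>
    intro h a hq hS hSY t ht
    simp only [Walk] at hq
    obtain ⟨h1, h2, h3⟩ := hq
    cases t with
    | zero =>
      cases q with
      | nil => simp at ht
      | cons s q =>
        simp only [Walk] at h3
        simp only [List.getElem_cons_zero, List.getElem_cons_succ]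
        rw [h3.1]
        have h4 := hA a (c h.length) r.S h h2
        have h5 := (hS r List.mem_cons_self _ (hSY r List.mem_cons_self h4)).2 h4
        rw [h1] at h5 ⊢
        exact h5
    | succ t =>
      simp only [List.getElem_cons_succ]
      exact ih _ _ h3 (fun r hr => hS r (List.mem_cons_of_mem _ hr))
        (fun r hr => hSY r (List.mem_cons_of_mem _ hr)) t (by simpa using ht)

/-- **Many rules.** Let `e` be a vertex of the hypersink `{u = e on P}` of `f₀`. The function `f₀` can
be changed inside the hypersink such that all the given rules, each with its start vertex, make at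
least `2 ^ J` steps. -/
lemma many {J : ℕ} (hJ : 1 ≤ J) : ∀ (R : List ((Past n → Fin n) × (Fin n → Bool)))
    (_ : ∀ x ∈ R, Valid x.1) (P : Finset (Fin n)) (e : Fin n → Bool) (f₀ : (Fin n → Bool) → ℕ),
    AOF f₀ → Function.Injective f₀ → Hyp f₀ P e →
    P.card + (4 * ms J * J + ms J * R.length) < n + ms J →
    ∃ f : (Fin n → Bool) → ℕ, AOF f ∧ Function.Injective f ∧ Hyp f P e ∧
      (∀ u, ¬ On P e u → f u = f₀ u) ∧
      ∀ x ∈ R, ∀ t < 2 ^ J, (improving f (run x.1 f t x.2 []).1).Nonempty := by
  intro R
  induction R with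
  | nil =>
    intro _ P e f₀ h1 h2 h3 _
    exact ⟨f₀, h1, h2, h3, fun _ _ => rfl, by simp⟩
  | cons x R ih =>
    obtain ⟨A, x₀⟩ := x
    intro hR P e f₀ hf₀ hinj₀ hP₀ hcard
    have hA : Valid A := hR (A, x₀) List.mem_cons_self
    have hlen : ((A, x₀) :: R).length = R.length + 1 := rfl
    rw [hlen, mul_add, mul_one] at hcard
    -- the first time at which the hypersink is entered
    have hent : ∃ t, On P e (run A f₀ t x₀ []).1 := by
      obtain ⟨t, ht⟩ := run_end (f := f₀) hA x₀
      exact ⟨t, on_of_max hf₀ hP₀ ht⟩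
    set τ := Nat.find hent with hτ
    have hτ1 : On P e (run A f₀ τ x₀ []).1 := Nat.find_spec hent
    have hτ2 : ∀ s < τ, ¬ On P e (run A f₀ s x₀ []).1 := fun s hs => Nat.find_min hent hs
    set a := (run A f₀ τ x₀ []).1 with ha
    set h := (run A f₀ τ x₀ []).2 with hh
    have hhl : h.length = τ := by rw [hh, run_length]; simp
    -- the walk in the hypersink
    set Y : Finset (Fin n) := univ \ P with hY
    have hYc : Y.card + P.card = n := by
      rw [hY, card_sdiff_add_card_eq_card (subset_univ P), card_univ, Fintype.card_fin]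
    set c : ℕ → ℕ := fun t => (t + 1) * 2 ^ n + (1 + ∑ u, f₀ u) with hc
    obtain ⟨q, b, X, hq, hE, hS, -, -, hXY, hXc, hwp, hql, -⟩ :=
      lv_all (c := c) hA hJ J le_rfl Y h a (by omega)
    have hfix := walk_fix hA hq hS
    have hbP : ∀ i ∈ P, b i = e i := fun i hi => by
      rw [hfix.1 i (by simp [hY, hi])]; exact hτ1 i hi
    have hrP : ∀ r ∈ q, On P e r.w := fun r hr i hi => by
      rw [hfix.2 r hr i (by simp [hY, hi])]; exact hτ1 i hi
    obtain ⟨f₁, hf₁, hf₁S, hf₁H⟩ := hE b {P ∪ X} (by
      intro A' hA' r hr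
      rw [mem_singleton] at hA'
      subst hA'
      obtain ⟨x, hx, h1⟩ := hwp r hr
      exact ⟨x, mem_union_right _ hx, h1⟩)
    have hH₁ : Hyp f₁ (P ∪ X) b := hf₁H _ (mem_singleton_self _)
    -- relabelling
    set u : ℕ → (Fin n → Bool) := fun t => if ht : t < q.length then (q[t]).w else x₀ with hu
    have hut : ∀ (t : ℕ) (ht : t < q.length), u t = (q[t]).w := fun t ht => by simp [hu, ht]
    obtain ⟨g, hginj, hgadj, hgval⟩ := relabel hf₁ (T := q.length) u (by
      intro t ht
      rw [hut t (by omega), hut (t + 1) ht]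
      exact walk_inc hA q h a hq hf₁S hS t ht)
    have hgA : AOF g := aof_congr hf₁ hgadj
    set g' : (Fin n → Bool) → ℕ := fun u => g u + τ * 2 ^ n with hg'
    set F : (Fin n → Bool) → ℕ := stack (On P e) g' f₀ with hF
    have hFA : AOF F := hf₀.stackOn (aof_add hgA _) hP₀
    have hFinj : Function.Injective F := by
      intro v w hvw
      by_cases hv : On P e v
      · by_cases hw : On P e w
        · rw [hF, stack_pos hv, stack_pos hw] at hvw
          simp only [hg'] at hvw
          exact hginj (by omega)
        · have := stack_lt (g := g') (f := f₀) hw hv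
          rw [← hF] at this
          omega
      · by_cases hw : On P e w
        · have := stack_lt (g := g') (f := f₀) hv hw
          rw [← hF] at this
          omega
        · rw [hF, stack_neg hv, stack_neg hw] at hvw
          exact hinj₀ hvw
    have hgH : ∀ v, On (P ∪ X) b v → ∀ i ∈ P ∪ X, g (flip v i) < g v := by
      intro v hv i hi
      have h1 := hgadj (flip v i) i
      rw [TH70.AR.flip_flip] at h1
      exact h1.2 (hH₁ v hv i hi)
    have hsub : ∀ v, On (P ∪ X) b v → On P e v := fun v hv i hi => by
      rw [← hbP i hi]; exact hv i (mem_union_left _ hi)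
    have hFH : Hyp F (P ∪ X) b := by
      intro v hv i hi
      have hvP := hsub v hv
      by_cases h1 : On P e (flip v i)
      · rw [hF, stack_lt_pos h1 hvP]
        have := hgH v hv i hi
        simp only [hg']
        omega
      · exact stack_lt h1 hvP
    -- the other rules
    have hPX : (P ∪ X).card ≤ P.card + ms J := (card_union_le P X).trans (by omega)
    obtain ⟨f, hfA, hfinj, hfH, hfF, hfR⟩ := ih (fun x hx => hR x (List.mem_cons_of_mem _ hx))
      (P ∪ X) b F hFA hFinj hFH (by omega)
    have hfP : Hyp f P e := by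
      intro v hv i hi
      by_cases h1 : On (P ∪ X) b v
      · exact hfH v h1 i (mem_union_left _ hi)
      · have h2 : ¬ On P e (flip v i) := by
          intro h3
          have h4 := h3 i hi
          rw [flip_self, hv i hi] at h4
          simp at h4
        rw [hfF v h1, hfF _ (fun h3 => h2 (hsub _ h3))]
        exact stack_lt h2 hv
    have hff₀ : ∀ v, ¬ On P e v → f v = f₀ v := fun v hv => by
      rw [hfF v (fun h1 => hv (hsub v h1)), hF, stack_neg hv]
    refine ⟨f, hfA, hfinj, hfP, hff₀, ?_⟩
    intro x hx
    rcases List.mem_cons.1 hx with rfl | hx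
    · -- the first rule
      have hpre : run A f τ x₀ [] = run A f₀ τ x₀ [] :=
        run_congr A f f₀ τ x₀ [] fun s hs => view_congr hfP hP₀ hff₀ (hτ2 s hs)
      have himp : ∀ r ∈ q, improving f r.w = r.S := by
        intro r hr
        have hrX : ¬ On (P ∪ X) b r.w := by
          intro h1
          obtain ⟨x, hx, -, h2⟩ := hwp r hr
          exact h2 (h1 x (mem_union_right _ hx)).symm
        have h1 := view_congr hfH hFH hfF hrX
        simp only [view, Prod.mk.injEq, true_and] at h1
        rw [h1.2]
        ext i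
        simp only [improving, mem_filter, mem_univ, true_and]
        by_cases hi : i ∈ P
        · have h2 : ¬ On P e (flip r.w i) := by
            intro h3
            have h4 := h3 i hi
            rw [flip_self, hrP r hr i hi] at h4
            simp at h4
          refine iff_of_false ?_ ?_
          · have := stack_lt (g := g') (f := f₀) h2 (hrP r hr)
            rw [← hF] at this
            omega
          · intro h3
            have := hS r hr h3
            rw [hY, mem_sdiff] at this
            exact this.2 hi
        · rw [hF, stack_lt_pos (hrP r hr) ((hrP r hr).flip hi)]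
          simp only [hg', add_lt_add_iff_right]
          rw [hgadj]
          exact hf₁S r hr i (by simp [hY, hi])
      have hval : ∀ (t : ℕ) (ht : t < q.length), f (q[t]).w = c (h.length + t) := by
        intro t ht
        have hr : q[t] ∈ q := List.getElem_mem ht
        have hrX : ¬ On (P ∪ X) b (q[t]).w := by
          intro h1
          obtain ⟨x, hx, -, h2⟩ := hwp _ hr
          exact h2 (h1 x (mem_union_right _ hx)).symm
        rw [hfF _ hrX, hF, stack_pos (hrP _ hr)]
        simp only [hg', hc]
        rw [← hut t ht, hgval t ht, hhl]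
        ring
      have hrun := run_walk (f := f) hq himp hval
      have hsplit : ∀ t, run A f (τ + t) x₀ [] = run A f t a h := by
        intro t
        rw [run_add, hpre]
      intro t ht
      by_cases htτ : t < τ
      · rw [nonempty_iff_ne_empty]
        intro h1
        have h2 := on_of_max hfA hfP h1
        have h3 : run A f t x₀ [] = run A f₀ t x₀ [] :=
          run_congr A f f₀ t x₀ [] fun s hs => view_congr hfP hP₀ hff₀ (hτ2 s (by omega))
        simp only at h2
        rw [h3] at h2
        exact hτ2 t htτ h2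
      · obtain ⟨s, rfl⟩ : ∃ s, t = τ + s := ⟨t - τ, by omega⟩
        have hs : s < q.length := by omega
        obtain ⟨h1, h2⟩ := hrun s hs
        change (improving f (run A f (τ + s) x₀ []).1).Nonempty
        rw [hsplit, h1, himp _ (List.getElem_mem hs)]
        exact h2
    · exact hfR x hx

/-- **The main result.** -/
theorem slow_many {J M : ℕ} (hJ : 1 ≤ J) (hn : ms J * (4 * J + M) ≤ n) (hM : 1 ≤ M)
    (rule : Fin M → Past n → Fin n) (hrule : ∀ q, Valid (rule q)) (x₀ : Fin M → Fin n → Bool) :
    ∃ f : (Fin n → Bool) → ℕ, Function.Injective f ∧ AOF f ∧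
      ∀ q, ∃ (L : ℕ) (w : ℕ → (Fin n → Bool)), w 0 = x₀ q ∧
        (∀ t < L, (improving f (w t)).Nonempty ∧ w (t + 1) = flip (w t) (rule q (seen f w t))) ∧
        improving f (w L) = ∅ ∧ 2 ^ J ≤ L := by
  classical
  obtain ⟨f₀, hinj₀, hadj₀, -⟩ := relabel (AOF.uniform (n := n) fun _ => false) (T := 0)
    (fun _ => x₀ ⟨0, hM⟩) (by intro t ht; omega)
  have hms : 1 ≤ ms J := by
    unfold ms
    have : 1 ≤ J * (Nat.log 2 J + 1) := Nat.mul_pos hJ (by omega)
    calc 1 ≤ 320 * (J * (Nat.log 2 J + 1)) := by omega
      _ = _ := by ring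
  obtain ⟨f, hfA, hfinj, -, -, hfR⟩ := many (n := n) hJ
    (List.ofFn fun q : Fin M => (rule q, x₀ q)) (by
      intro x hx
      rw [List.mem_ofFn] at hx
      obtain ⟨q, rfl⟩ := hx
      exact hrule q) ∅ (fun _ => false) f₀ (aof_congr (AOF.uniform _) hadj₀) hinj₀
    (by intro v _ i hi; simp at hi) (by
      rw [List.length_ofFn, card_empty]
      have : ms J * (4 * J + M) = 4 * ms J * J + ms J * M := by ring
      omega)
  refine ⟨f, hfinj, hfA, fun q => ?_⟩
  have hend := run_end (f := f) (hrule q) (x₀ q)
  set w : ℕ → (Fin n → Bool) := fun t => (run (rule q) f t (x₀ q) []).1 with hw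
  have hseen : ∀ t, seen f w t = view f (w t) :: (run (rule q) f t (x₀ q) []).2 := by
    intro t
    induction t with
    | zero => rfl
    | succ t ih => rw [seen, ih, run_succ]
  refine ⟨Nat.find hend, w, rfl, fun t ht => ⟨?_, ?_⟩, Nat.find_spec hend, ?_⟩
  · exact nonempty_iff_ne_empty.2 (Nat.find_min hend ht)
  · rw [hseen]
    simp only [hw, run_succ]
  · by_contra hlt
    push Not at hlt
    have h1 := hfR (rule q, x₀ q) (by rw [List.mem_ofFn]; exact ⟨q, rfl⟩) _ hlt
    rw [nonempty_iff_ne_empty] at h1
    exact h1 (Nat.find_spec hend)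

end Pool.Agent.Q218.AR2
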