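import Pool.Agent.TH70.AR.Run
set_option autoImplicit false

/-!
# A faster wiping phase

The number of useless directions of a record is at most `K`, and it is at most `K - D i` except for
`2 C (2 ^ i - 1)` records (`Tail`). So as long as many records are left, the threshold for exceptional
directions can be lowered, and a larger part of the records is wiped in one step.
-/

namespace Pool.Agent.Q218.AR2

open Finset Pool.Agent.TH70.AR

variable {n : ℕ} {A : Past n → Fin n} {c : ℕ → ℕ}

/-- few records have many useless directions -/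
def Tail (K D C : ℕ) (Y : Finset (Fin n)) (L : List (Rec n)) : Prop :=
  ∀ i : ℕ, L.countP (fun r => decide (K < (Y \ r.W).card + D * i)) ≤ C * (2 ^ i - 1)

lemma Tail.sublist {K D C : ℕ} {Y : Finset (Fin n)} {L L' : List (Rec n)} (h : Tail K D C Y L)
    (hL : L'.Sublist L) : Tail K D C Y L' := fun i => (hL.countP_le).trans (h i)

lemma Tail.subset {K D C : ℕ} {Y Y' : Finset (Fin n)} {L : List (Rec n)} (h : Tail K D C Y L)
    (hY : Y' ⊆ Y) : Tail K D C Y' L := by
  intro i
  refine le_trans (List.countP_mono_left ?_) (h i)
  intro r _ hr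
  simp only [decide_eq_true_eq] at hr ⊢
  have := card_le_card (sdiff_subset_sdiff hY (Subset.refl r.W))
  omega

/-- the records with few useless directions -/
def light (Y : Finset (Fin n)) (K' : ℕ) (L : List (Rec n)) : List (Rec n) :=
  L.filter fun r => decide ((Y \ r.W).card ≤ K')

lemma light_half {K D C : ℕ} {Y : Finset (Fin n)} {L : List (Rec n)} (h : Tail K D (2 * C) Y L)
    {i : ℕ} (hi : 4 * C * (2 ^ i - 1) ≤ L.length) : L.length ≤ 2 * (light Y (K - D * i) L).length := by
  have h1 := h i
  have h2 := List.length_eq_countP_add_countP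
    (fun r : Rec n => decide ((Y \ r.W).card ≤ K - D * i)) (l := L)
  have h3 : L.countP (fun r => decide ¬(decide ((Y \ r.W).card ≤ K - D * i)) = true) ≤
      L.countP (fun r => decide (K < (Y \ r.W).card + D * i)) := by
    apply List.countP_mono_left
    intro r _ hr
    simp only [decide_eq_true_eq] at hr ⊢
    omega
  have h4 : (light Y (K - D * i) L).length =
      L.countP (fun r => decide ((Y \ r.W).card ≤ K - D * i)) := by
    rw [light, List.countP_eq_length_filter]
  have h5 : 2 * (2 * C * (2 ^ i - 1)) = 4 * C * (2 ^ i - 1) := by ring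
  omega

/-- the conclusion of a step of wiping -/
lemma step_count {k N w F : ℕ} (hw : N ≤ (4 * k + 4) * w) (hN : N ≤ F + 1 + F / (4 * k + 3)) :
    N - w ≤ F := by
  by_contra h
  push Not at h
  have h1 : F + 1 + w ≤ N := by omega
  have h2 : w ≤ F / (4 * k + 3) := by omega
  have h3 : w * (4 * k + 3) ≤ F := by
    calc w * (4 * k + 3) ≤ F / (4 * k + 3) * (4 * k + 3) := Nat.mul_le_mul_right _ h2
      _ ≤ F := Nat.div_mul_le_self _ _
  nlinarith

/-- **The wiping phase.** -/
lemma wipe (hA : Valid A) {K D C B : ℕ} {F : ℕ → ℕ} (hF0 : F 0 = 0)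
    (hF : ∀ t, ∃ k i : ℕ, 1 ≤ k ∧ 4 * C * (2 ^ i - 1) ≤ F t ∧
      (K - D * i) + (K - D * i) / k ≤ B ∧ F (t + 1) ≤ F t + 1 + F t / (4 * k + 3)) (m : ℕ) :
    ∀ (Y Z : Finset (Fin n)) (L : List (Rec n)) (h : Past n) (a : Fin n → Bool),
      Z ⊆ Y → Tail K D (2 * C) Y L → L.length ≤ F m →
      Z.card + B + m < Y.card →
      ∃ (q : List (Rec n)) (b : Fin n → Bool) (X : Finset (Fin n)),
        Walk A c h a q b ∧ Ext Y q ∧ (∀ r ∈ q, r.S ⊆ Y \ Z) ∧
        (∀ r ∈ q, r.W ⊆ Y ∧ (Y \ r.W).card ≤ Z.card + B + m) ∧
        X ⊆ Y ∧ Z ⊆ X ∧ X.card ≤ Z.card + m ∧ q.length ≤ m ∧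
        (∀ r ∈ L, Wipes X b r) ∧ ∀ r ∈ q, Wipes X b r := by
  induction m with
  | zero =>
    intro Y Z L h a hZ hL hc hY
    have hL0 : L = [] := by
      rw [← List.length_eq_zero_iff]
      omega
    subst hL0
    exact ⟨[], a, Z, rfl, ext_nil Y, by simp, by simp, hZ, Subset.refl _, by simp, by simp,
      by simp, by simp⟩
  | succ m ih =>
    intro Y Z L h a hZ hL hc hY
    by_cases hLm : L.length ≤ F m
    · obtain ⟨q, b, X, h1, h2, h3, h4, h5, h6, h7, h8, h9, h10⟩ := ih Y Z L h a hZ hL hLm (by omega)
      exact ⟨q, b, X, h1, h2, h3, fun r hr => ⟨(h4 r hr).1, by have := (h4 r hr).2; omega⟩, h5, h6,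
        by omega, by omega, h9, h10⟩
    push Not at hLm
    obtain ⟨k, i₀, hk, hi₀, hB, hFs⟩ := hF m
    have hlight := light_half hL (i := i₀) (by omega)
    set K' := K - D * i₀ with hK'
    set L' := light Y K' L with hL'
    have hL'0 : L' ≠ [] := by
      intro h0
      rw [h0] at hlight
      simp at hlight
      rw [hlight] at hLm
      simp at hLm
    have hL'K : ∀ r ∈ L', (Y \ r.W).card ≤ K' := by
      intro r hr
      rw [hL', light, List.mem_filter] at hr
      simpa using hr.2
    have hsub : L'.Sublist L := List.filter_sublist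
    -- if a test wipes a large part of `L`, the rest is small enough
    have hstep : ∀ P : Rec n → Bool, L.length ≤ (4 * k + 4) * (L.filter P).length →
        (L.filter fun r => !P r).length ≤ F m := by
      intro P hP
      have h1 : L.length = (L.filter P).length + (L.filter fun r => !P r).length :=
        L.length_eq_length_filter_add P
      have h2 := step_count hP (hc.trans hFs)
      omega
    by_cases hx : ∃ x ∈ Y, L.length ≤
        (4 * k + 4) * (L.filter fun r => decide (x ∈ r.W ∧ a x ≠ r.w x)).length
    · -- freeze `x` as it is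
      obtain ⟨x, hxY, hx⟩ := hx
      have hZ' : insert x Z ⊆ Y := insert_subset hxY hZ
      have hZc : (insert x Z).card ≤ Z.card + 1 := card_insert_le _ _
      obtain ⟨q, b, X, h1, h2, h3, h4, h5, h6, h7, h8, h9, h10⟩ :=
        ih Y (insert x Z) (L.filter fun r => !decide (x ∈ r.W ∧ a x ≠ r.w x)) h a hZ'
          (hL.sublist List.filter_sublist) (hstep _ hx) (by omega)
      refine ⟨q, b, X, h1, h2, fun r hr => ?_, fun r hr => ⟨(h4 r hr).1, ?_⟩, h5,
        (subset_insert _ _).trans h6, by omega, by omega, fun r hr => ?_, h10⟩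
      · exact (h3 r hr).trans (sdiff_subset_sdiff (Subset.refl _) (subset_insert _ _))
      · have := (h4 r hr).2
        omega
      · by_cases hr' : x ∈ r.W ∧ a x ≠ r.w x
        · refine ⟨x, h6 (mem_insert_self _ _), hr'.1, ?_⟩
          rw [(walk_fix hA h1 h3).1 x (by simp)]
          exact hr'.2
        · exact h9 r (List.mem_filter.2 ⟨hr, by
            simp only [Bool.not_eq_true', decide_eq_false_iff_not]; exact hr'⟩)
    · -- let the rule move
      push Not at hx
      set E := Y.filter fun x => k * L'.length < (k + 1) * L'.countP (fun r => decide (x ∉ r.W))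
        with hE
      have hEc : E.card ≤ B := (exceptional_card hk hL'0 hL'K).trans hB
      set S := Y \ (E ∪ Z) with hS
      have hSc : Y.card ≤ S.card + (E.card + Z.card) := by
        have h1 := card_le_card_sdiff_add_card (s := Y) (t := E ∪ Z)
        rw [← hS] at h1
        have h2 := card_union_le E Z
        omega
      have hSne : S.Nonempty := by
        rw [← card_pos]
        omega
      have hSY : S ⊆ Y := sdiff_subset
      set i := A ((a, c h.length, S) :: h) with hi
      have hiS : i ∈ S := hA a _ S h hSne
      have hiY : i ∈ Y := hSY hiS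
      have hiE : i ∉ E := fun h' => (mem_sdiff.1 hiS).2 (mem_union_left _ h')
      have hiZ : i ∉ Z := fun h' => (mem_sdiff.1 hiS).2 (mem_union_right _ h')
      have hcount : L.length ≤
          (4 * k + 4) * (L.filter fun r => decide (i ∈ r.W ∧ flip a i i ≠ r.w i)).length := by
        have h1 := count_three L' a i
        have h2 := hx i hiY
        have h3 : (k + 1) * L'.countP (fun r => decide (i ∉ r.W)) ≤ k * L'.length := by
          by_contra h'
          exact hiE (by rw [hE, mem_filter]; exact ⟨hiY, by omega⟩)
        have h4 : (L'.filter fun r => decide (i ∈ r.W ∧ flip a i i ≠ r.w i)).length ≤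
            (L.filter fun r => decide (i ∈ r.W ∧ flip a i i ≠ r.w i)).length :=
          (hsub.filter _).length_le
        have h5 : (L'.filter fun r => decide (i ∈ r.W ∧ a i ≠ r.w i)).length ≤
            (L.filter fun r => decide (i ∈ r.W ∧ a i ≠ r.w i)).length :=
          (hsub.filter _).length_le
        set p := (L.filter fun r => decide (i ∈ r.W ∧ flip a i i ≠ r.w i)).length
        set p' := (L'.filter fun r => decide (i ∈ r.W ∧ flip a i i ≠ r.w i)).length
        set s := (L.filter fun r => decide (i ∈ r.W ∧ a i ≠ r.w i)).length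
        set s' := (L'.filter fun r => decide (i ∈ r.W ∧ a i ≠ r.w i)).length
        set z := L'.countP (fun r => decide (i ∉ r.W))
        have h6 : L'.length ≤ (k + 1) * (p + s) := by
          have h7 : (k + 1) * L'.length ≤ (k + 1) * (p' + s' + z) := Nat.mul_le_mul_left _ h1
          have h8 : (k + 1) * (p' + s') ≤ (k + 1) * (p + s) :=
            Nat.mul_le_mul_left _ (by omega)
          have h9 : (k + 1) * (p' + s' + z) = (k + 1) * (p' + s') + (k + 1) * z := by ring
          have h10 : (k + 1) * L'.length = k * L'.length + L'.length := by ring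
          omega
        have h7 : (2 * (k + 1)) * (p + s) = (2 * (k + 1)) * p + (2 * (k + 1)) * s := by ring
        have h8 : (4 * k + 4) * s = 2 * ((2 * (k + 1)) * s) := by ring
        have h9 : (4 * k + 4) * p = 2 * ((2 * (k + 1)) * p) := by ring
        have h10 : L.length ≤ (2 * (k + 1)) * (p + s) := by
          calc L.length ≤ 2 * L'.length := hlight
            _ ≤ 2 * ((k + 1) * (p + s)) := Nat.mul_le_mul_left _ h6
            _ = _ := by ring
        omega
      have hYc : (Y \ {i}).card + 1 = Y.card := by
        rw [sdiff_singleton_eq_erase]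
        exact card_erase_add_one hiY
      obtain ⟨q, b, X, h1, h2, h3, h4, h5, h6, h7, h8, h9, h10⟩ :=
        ih (Y \ {i}) Z (L.filter fun r => !decide (i ∈ r.W ∧ flip a i i ≠ r.w i))
          ((a, c h.length, S) :: h) (flip a i)
          (fun z hz => mem_sdiff.2 ⟨hZ hz, by
            rw [mem_singleton]; rintro rfl; exact hiZ hz⟩)
          ((hL.sublist List.filter_sublist).subset sdiff_subset)
          (hstep _ hcount) (by omega)
      have hq' : ∀ r ∈ q, r.S ⊆ Y \ {i} := fun r hr => (h3 r hr).trans sdiff_subset
      have hfix := walk_fix hA h1 hq'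
      have hbi : b i = flip a i i := hfix.1 i (by simp)
      have hne : flip a i i ≠ a i := by rw [flip_self]; simp
      have hcl : [(⟨a, S, S⟩ : Rec n)].map (cl {i} (flip a i)) = [⟨a, S, S⟩] := by
        simp only [List.map_cons, List.map_nil, cl]
        congr 2
        rw [filter_true_of_mem]
        rintro x hx ⟨h1, h2⟩
        rw [mem_singleton] at h1
        subst h1
        exact hne h2
      refine ⟨⟨a, S, S⟩ :: q, b, insert i X, ⟨rfl, hSne, h1⟩, ?_, ?_, ?_, ?_, ?_, ?_, ?_, ?_, ?_⟩
      · have := ext_comp (X := {i}) (b := flip a i) (ext_single Y a S) (by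
          intro r hr
          rw [List.mem_singleton] at hr
          subst hr
          exact ⟨i, mem_singleton_self i, hiS, hne⟩) h2 hq' (fun r hr => (h4 r hr).1) (by
          intro r hr x hx
          exact hfix.2 r hr x (by rw [mem_sdiff]; exact fun h' => h'.2 hx))
        rwa [hcl] at this
      · intro r hr
        rcases List.mem_cons.1 hr with rfl | hr
        · intro x hx
          rw [mem_sdiff]
          exact ⟨hSY hx, fun h' => (mem_sdiff.1 hx).2 (mem_union_right _ h')⟩
        · exact (h3 r hr).trans (sdiff_subset_sdiff sdiff_subset (Subset.refl _))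
      · intro r hr
        rcases List.mem_cons.1 hr with rfl | hr
        · refine ⟨hSY, ?_⟩
          change (Y \ S).card ≤ _
          have h11 : Y \ S ⊆ E ∪ Z := by
            intro x hx
            rw [mem_sdiff] at hx
            by_contra h'
            exact hx.2 (mem_sdiff.2 ⟨hx.1, h'⟩)
          have h12 := card_le_card h11
          have h13 := card_union_le E Z
          omega
        · refine ⟨(h4 r hr).1.trans sdiff_subset, ?_⟩
          have h11 : Y \ r.W ⊆ insert i ((Y \ {i}) \ r.W) := by
            intro x hx
            rw [mem_sdiff] at hx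
            rw [mem_insert, mem_sdiff, mem_sdiff, mem_singleton]
            by_cases hxi : x = i
            · exact Or.inl hxi
            · exact Or.inr ⟨⟨hx.1, hxi⟩, hx.2⟩
          have h12 := card_le_card h11
          have h13 := card_insert_le i ((Y \ {i}) \ r.W)
          have h14 := (h4 r hr).2
          omega
      · exact insert_subset hiY (h5.trans sdiff_subset)
      · exact h6.trans (subset_insert _ _)
      · have := card_insert_le i X
        omega
      · rw [List.length_cons]
        omega
      · intro r hr
        by_cases hr' : i ∈ r.W ∧ flip a i i ≠ r.w i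
        · exact ⟨i, mem_insert_self _ _, hr'.1, by rw [hbi]; exact hr'.2⟩
        · obtain ⟨x, hx1, hx2⟩ := h9 r (List.mem_filter.2 ⟨hr, by
            simp only [Bool.not_eq_true', decide_eq_false_iff_not]; exact hr'⟩)
          exact ⟨x, mem_insert_of_mem hx1, hx2⟩
      · intro r hr
        rcases List.mem_cons.1 hr with rfl | hr
        · exact ⟨i, mem_insert_self _ _, hiS, by rw [hbi]; exact hne⟩
        · obtain ⟨x, hx1, hx2⟩ := h10 r hr
          exact ⟨x, mem_insert_of_mem hx1, hx2⟩

end Pool.Agent.Q218.AR2
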